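import Mathlib

namespace Pool.Agent.Results.MP_62401a_nt.UpToFive

/-- The alternating sum p^r - p^(r-1) + ... + (-1)^r. -/
def altPow (p r : ℕ) : ℤ := ∑ j ∈ Finset.range (r + 1), (-1) ^ j * (p : ℤ) ^ (r - j)

/-- The multiplicative extension: the product of `altPow p r` over the exact prime powers
`p ^ r` dividing `n`. -/
def altSigma (n : ℕ) : ℤ := n.factorization.prod altPow

lemma altPow_zero (p : ℕ) : altPow p 0 = 1 := by simp [altPow]

lemma altSigma_prime_pow {p : ℕ} (hp : p.Prime) (r : ℕ) : altSigma (p ^ r) = altPow p r := by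
  unfold altSigma
  rw [hp.factorization_pow, Finsupp.prod_single_index (altPow_zero p)]

lemma altSigma_mul {a b : ℕ} (h : Nat.Coprime a b) :
    altSigma (a * b) = altSigma a * altSigma b := by
  unfold altSigma
  rw [Nat.factorization_mul_of_coprime h]
  exact Finsupp.prod_add_index_of_disjoint h.disjoint_primeFactors _

lemma altSigma_one : altSigma 1 = 1 := by simp [altSigma]

/-- The number with a given list of prime powers. -/
def num (l : List (ℕ × ℕ)) : ℕ := (l.map fun x => x.1 ^ x.2).prod

lemma altSigma_num (l : List (ℕ × ℕ)) (hp : ∀ x ∈ l, x.1.Prime)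
    (hn : (l.map Prod.fst).Nodup) :
    altSigma (num l) = (l.map fun x => altPow x.1 x.2).prod := by
  induction l with
  | nil => simp [num, altSigma_one]
  | cons a l ih =>
    have h1 : (l.map Prod.fst).Nodup := (List.nodup_cons.1 hn).2
    have h2 : a.1 ∉ l.map Prod.fst := (List.nodup_cons.1 hn).1
    have h3 : ∀ x ∈ l, x.1.Prime := fun x hx => hp x (List.mem_cons_of_mem _ hx)
    have ha : a.1.Prime := hp a List.mem_cons_self
    have hc : Nat.Coprime (a.1 ^ a.2) (num l) := by
      apply Nat.Coprime.pow_left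
      unfold num
      rw [Nat.coprime_list_prod_right_iff]
      intro y hy
      obtain ⟨x, hx, rfl⟩ := List.mem_map.1 hy
      apply Nat.Coprime.pow_right
      rw [Nat.coprime_primes ha (h3 x hx)]
      intro hax
      exact h2 (List.mem_map.2 ⟨x, hx, hax.symm⟩)
    have he : num (a :: l) = a.1 ^ a.2 * num l := by simp [num]
    rw [he, altSigma_mul hc, altSigma_prime_pow ha, ih h3 h1]
    simp

lemma num_pos (l : List (ℕ × ℕ)) (hp : ∀ x ∈ l, x.1.Prime) : 0 < num l := by
  unfold num
  apply Nat.pos_of_ne_zero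
  apply List.prod_ne_zero
  intro h0
  obtain ⟨x, hx, h⟩ := List.mem_map.1 h0
  exact absurd h (pow_ne_zero _ (hp x hx).ne_zero)

/-- The prime powers of the witness for k = 2. -/
def lst2 : List (ℕ × ℕ) :=
  [(2, 1)]

lemma prime2 : ∀ x ∈ lst2, x.1.Prime := by
  intro x hx
  simp only [lst2, List.mem_cons, List.not_mem_nil, or_false] at hx
  subst hx; norm_num

/-- The prime powers of the witness for k = 3. -/
def lst3 : List (ℕ × ℕ) :=
  [(2, 1), (3, 1)]

lemma prime3 : ∀ x ∈ lst3, x.1.Prime := by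
  intro x hx
  simp only [lst3, List.mem_cons, List.not_mem_nil, or_false] at hx
  rcases hx with rfl | rfl <;> norm_num

/-- The prime powers of the witness for k = 4. -/
def lst4 : List (ℕ × ℕ) :=
  [(2, 13), (3, 8), (5, 1), (7, 2), (11, 1), (13, 1), (19, 1), (23, 1), (37, 1), (43, 2),
    (127, 1), (139, 1)]

lemma prime4 : ∀ x ∈ lst4, x.1.Prime := by
  intro x hx
  simp only [lst4, List.mem_cons, List.not_mem_nil, or_false] at hx
  rcases hx with rfl | rfl | rfl | rfl | rfl | rfl | rfl | rfl | rfl | rfl | rfl | rfl <;> norm_num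

/-- The prime powers of the witness for k = 5. -/
def lst5 : List (ℕ × ℕ) :=
  [(2, 95), (3, 29), (5, 12), (7, 12), (11, 5), (13, 7), (17, 4), (19, 2), (23, 1), (29, 1),
    (31, 1), (37, 1), (41, 2), (47, 1), (53, 1), (61, 2), (67, 1), (71, 1), (73, 1), (83, 1),
    (97, 1), (101, 1), (137, 1), (193, 1), (241, 1), (257, 1), (271, 1), (367, 1), (499, 1),
    (523, 1), (547, 1), (673, 1), (4561, 1), (5227, 1), (5987, 1), (14281, 1), (38923, 1),
    (65537, 1), (115903, 1), (22253377, 1), (228511817, 1)]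

lemma prime5 : ∀ x ∈ lst5, x.1.Prime := by
  intro x hx
  simp only [lst5, List.mem_cons, List.not_mem_nil, or_false] at hx
  rcases hx with rfl | rfl | rfl | rfl | rfl | rfl | rfl | rfl | rfl | rfl | rfl | rfl | rfl | rfl | rfl | rfl | rfl | rfl | rfl | rfl | rfl | rfl | rfl | rfl | rfl | rfl | rfl | rfl | rfl | rfl | rfl | rfl | rfl | rfl | rfl | rfl | rfl | rfl | rfl | rfl | rfl <;> norm_num

theorem result : ∀ k : ℕ, 1 ≤ k → k ≤ 5 → ∃ n : ℕ, 0 < n ∧ (k : ℤ) * altSigma n = n := by
  intro k h1 h5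
  interval_cases k
  · exact ⟨1, one_pos, by simp [altSigma_one]⟩
  · refine ⟨num lst2, num_pos _ prime2, ?_⟩
    rw [altSigma_num lst2 prime2 (by decide +kernel)]
    decide +kernel
  · refine ⟨num lst3, num_pos _ prime3, ?_⟩
    rw [altSigma_num lst3 prime3 (by decide +kernel)]
    decide +kernel
  · refine ⟨num lst4, num_pos _ prime4, ?_⟩
    rw [altSigma_num lst4 prime4 (by decide +kernel)]
    decide +kernel
  · refine ⟨num lst5, num_pos _ prime5, ?_⟩
    rw [altSigma_num lst5 prime5 (by decide +kernel)]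
    decide +kernel

end Pool.Agent.Results.MP_62401a_nt.UpToFive
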